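import Pool.Agent.Run7.h509.Vs

/-!
# Diagrams of links not separated from the unknot by Vassiliev invariants of bounded order

Diagrams: `Pool.Agent.H891R2.Jones.Diagram` (`Diagram`: oriented diagrams with marked points; the arcs only say
which marked points are joined, so planarity is not required; `Diagram.IsClosed`: the pieces fit together to
closed oriented curves) and `Pool.Agent.H891R2.MT.Defs` (`UDiagram`, `Orients D U`: `D` is `U` with directions).

Vassiliev invariants: `Pool.Agent.H832R3.VJ.Defs` (`Dia`: an oriented diagram with the finite set of its marked
points; `Move`: relabelling, subdivision of strands and the Reidemeister moves; `sing`: extension to diagrams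
with double points by the Vassiliev skein relation; `IsVassiliev n v`: `v` is an invariant of oriented links of
order at most `n`; `Separated d X Y`: some integer valued Vassiliev invariant of order at most `d` has
different values on `X` and `Y`; `unknot`).

Templates: `Pool.Agent.H832R3.TW.Defs` (`Corner k`: the `4 k` corners of `k` boxes; a template is the list
`arcs` of the pairs of corners joined outside of the boxes; `twisted arcs n`: the diagram in which the box `e`
contains a row of `|n e|` crossings of the kind given by the sign of `n e`; `loops arcs S`: the number of
components if the boxes `e ∈ S` contain two vertical strands (along the row) and the other boxes two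
horizontal ones (the box is cut)).  Every link diagram whose crossings are divided into `k` twist regions
(rows of crossings of the same kind) is of the form `twisted arcs n`.

New definitions (`Pool.Agent.Run7.h509.Tp`, `Tp2`, `Tp3`, `Abs`, `Vs`):

* `ClosedT arcs`: every corner is joined by an arc to exactly one other corner.
* `pieces arcs X`: the number of connected pieces of the diagram in which the boxes outside `X` are cut and every
  box in `X` counts as one piece with its four corners.
* `SpansT arcs Y`: `|Yᶜ| + pieces Yᶜ = loops ∅`; the boxes outside `Y`, as edges between the components of the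
  state `∅` (all boxes cut), form a forest (always true for `Y = univ`).
* `rkT arcs Q = |Q| + pieces univ - pieces Qᶜ`: the rank of `Q` in the dual of the cycle matroid of the graph with
  the components of the state `∅` as vertices and the boxes as edges.
* `FlatIn r Y F`: `F ⊆ Y`, and the rank of `F` increases by `1` if any element of `Y \ F` is added.  For instance
  `Y` is a flat, and `∅` is a flat if no box in `Y` is nugatory.
* `ordT k s = 2^k (12 k + 1) + 4 (k + s + 1)`.

Proof: see `BalancedTwistOrder`.  A link which is not separated from the unknot has the normalised bracket `1`.  It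
is, up to a unit and a power of `δ = - A² - A⁻²`, the sum of `(- A⁻⁴)^{n(R)} Z(R)` over the sets `R` of boxes.  So the
exponents decompose into clusters, and the lowest order terms at `δ = 0` of the `Z(R)` cancel in every cluster.  The
lowest order term of `Z(R)` is `0` if `R` is not a flat, and it has the sign `(-1)^{r(Y) - r(R)}` if `R` is a flat.
-/

set_option autoImplicit false

namespace Pool.Agent.Results.MP_5f6b43_gt.FlatPartnersOrder

open Finset Pool.Agent.H891R2.Jones Pool.Agent.H891R2.MT Pool.Agent.H832R3.TW Pool.Agent.H832R3.VJ Run7.h509.Abs Run7.h509.Tp Run7.h509.Vs

/-- Let `arcs` be a connected closed template with `k` boxes, and let `Y` be a nonempty spanning set of boxes none of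
which is nugatory (the diagram remains connected if the box is cut).  Let `D` be the link with `|n e|` crossings in
the box `e`, with any directions.  Two sets `R`, `R' ⊆ Y` are called near if
`|n(R) - n(R')| ≤ 4 k + 1 + ∑_{e ∉ Y} |n e|`, where `n(R) = ∑_{e ∈ R} n e`.

* Suppose that `D` is not separated from the unknot by the Vassiliev invariants of order at most
  `ordT k 0 = 2^k (12 k + 1) + 4 (k + 1)`, a number which does not depend on `n`.  Let `𝒞` be a family of subsets of
  `Y` which contains with a set all sets near to it.  If `𝒞` contains a flat, then it contains a flat whose
  rank has the other parity.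
* In particular every flat `F` of `Y` (for instance `F = ∅` and `F = Y`) is near to another set `R ⊆ Y`.
* So if `|n(R)| > 4 k + 1 + ∑_{e ∉ Y} |n e|` for all nonempty sets `R ⊆ Y` (for `Y = univ`: if no nonempty set of
  boxes has, with signs, almost as many positive as negative crossings), then `D` is separated from the unknot
  by a Vassiliev invariant of order at most `ordT k 0`. -/
theorem result {k : ℕ} (arcs : List (Corner k × Corner k)) (ho : ClosedT arcs) (Y : Finset (Fin k))
    (hY : Y.Nonempty) (h1 : pieces arcs Finset.univ = 1) (h2 : ∀ e ∈ Y, pieces arcs {e}ᶜ = 1)
    (hsp : SpansT arcs Y) (n : Fin k → ℤ)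
    (D : Diagram (Ribbon.Pt n)) (hD : Orients D (twisted arcs n)) (_ : D.IsClosed) :
    (¬ Separated (ordT k 0) ⟨_, inferInstance, D⟩ unknot →
      (∀ 𝒞 : Finset (Finset (Fin k)), (∀ R ∈ 𝒞, R ⊆ Y) →
        (∀ R ∈ 𝒞, ∀ R' ⊆ Y, |∑ e ∈ R, n e - ∑ e ∈ R', n e| ≤ 4 * k + 1 + ∑ e ∈ Yᶜ, |n e| → R' ∈ 𝒞) →
        ∀ F ∈ 𝒞, FlatIn (rkT arcs) Y F → ∃ F' ∈ 𝒞, FlatIn (rkT arcs) Y F' ∧
          Odd (rkT arcs F + rkT arcs F')) ∧
      ∀ F, FlatIn (rkT arcs) Y F → ∃ R ⊆ Y, R ≠ F ∧
        |∑ e ∈ F, n e - ∑ e ∈ R, n e| ≤ 4 * k + 1 + ∑ e ∈ Yᶜ, |n e|) ∧
    ((∀ R ⊆ Y, R.Nonempty → 4 * k + 1 + ∑ e ∈ Yᶜ, |n e| < |∑ e ∈ R, n e|) →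
      Separated (ordT k 0) ⟨_, inferInstance, D⟩ unknot) := by
  have hk : 0 < k := by
    obtain ⟨e, _⟩ := hY
    exact Fin.pos e
  constructor
  · intro h
    have key := parityT (Or.inl ho) hY h1 h2 hsp 0 n D hD (one_span 0 (one_of_hidden arcs hk n D hD h))
    simpa using key
  · intro h
    have key := zeroT (Or.inl ho) hY h1 h2 hsp 0 n (by simpa using h) D hD
    by_contra hs
    exact key (one_span 0 (one_of_hidden arcs hk n D hD hs))

end Pool.Agent.Results.MP_5f6b43_gt.FlatPartnersOrder

/-
Text of the claim file this result had while it was handed in (it is not handed in now):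
Proves: Let arcs be a connected closed template with k boxes (planar or not), Y a nonempty spanning set of boxes, each leaving one piece if cut, n in Z^k, D the link diagram with |n_e| crossings in each box e, B=4k+1+sum of |n_e| off Y; call R, R' in Y near if |n(R)-n(R')|<=B. If no integer valued Vassiliev invariant of order at most ordT k 0=2^k(12k+1)+4(k+1) (independent of n) separates D from the unknot, then every family of subsets of Y closed under nearness which contains a flat contains flats of both rank parities, and every flat is near to another subset of Y. Hence if |n(R)|>B for all nonempty R in Y, such an invariant separates D from the unknot.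
Definitions: ClosedT arcs: every corner is joined to exactly one other. pieces arcs X: pieces if the boxes off X are cut, each box in X is one piece. SpansT arcs Y: |Yc|+pieces Yc=loops 0. rkT arcs Q=|Q|+pieces univ-pieces Qc: rank in the dual of the cycle matroid of the graph (vertices: components of the all-cut state, edges: boxes). FlatIn r Y F: F in Y, adding any e of Y off F raises r. Library: twisted, Orients, IsClosed, Separated d, unknot.
Relation: Partial answer to Q1; diagrams need not be reduced or semiadequate. Start files UniformOrder etc. need |n(R)-n(R')| large. Own: MP_42db45_gt.FlatPartners (Jones polynomial).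

-/
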