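import Pool.Agent.Run7.h509.Vs

/-!
# Links which are not separated from smaller ones by Vassiliev invariants of bounded order

Diagrams: `Pool.Agent.H891R2.Jones.Diagram` (`Diagram`: oriented diagrams with marked points; the arcs only say
which marked points are joined, so planarity is not required; `Diagram.IsClosed`: the pieces fit together to
closed oriented curves) and `Pool.Agent.H891R2.MT.Defs` (`UDiagram`, `Orients D U`: `D` is `U` with directions).

Vassiliev invariants: `Pool.Agent.H832R3.VJ.Defs` (`Dia`: an oriented diagram with the finite set of its marked
points; `Move`: relabelling, subdivision of strands and the Reidemeister moves; `sing`: extension to diagrams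
with double points by the Vassiliev skein relation; `IsVassiliev n v`: `v` is an invariant of oriented links of
order at most `n`; `Separated d X Y`: some integer valued Vassiliev invariant of order at most `d` has
different values on `X` and `Y`; `unknot`).

Templates: `Pool.Agent.H832R3.TW.Defs` (`Corner k`: the `4 k` corners of `k` boxes; a template is the list
`arcs` of the pairs of corners joined outside of the boxes; `twisted arcs n`: the diagram in which the box `e`
contains a row of `|n e|` crossings of the kind given by the sign of `n e`; `loops arcs S`: the number of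
components if the boxes `e ∈ S` contain two vertical strands (along the row) and the other boxes two
horizontal ones (the box is cut)).  Every link diagram whose crossings are divided into `k` twist regions
(rows of crossings of the same kind) is of the form `twisted arcs n`.
`FSpanLE s X` (in `Pool.Agent.H832R3.TW.E`): the normalised bracket of `X` is supported in an interval of length at
most `4 s` (the Jones polynomial has span at most `s`).

New definitions (`Pool.Agent.Run7.h509.Tp`, `Tp2`, `Tp3`, `Abs`, `Vs`):

* `ClosedT arcs`: every corner is joined by an arc to exactly one other corner.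
* `pieces arcs X`: the number of connected pieces of the diagram in which the boxes outside `X` are cut and every
  box in `X` counts as one piece with its four corners.
* `SpansT arcs Y`: `|Yᶜ| + pieces Yᶜ = loops ∅`; the boxes outside `Y`, as edges between the components of the
  state `∅` (all boxes cut), form a forest (always true for `Y = univ`).
* `rkT arcs Q = |Q| + pieces univ - pieces Qᶜ`: the rank of `Q` in the dual of the cycle matroid of the graph with
  the components of the state `∅` as vertices and the boxes as edges.
* `FlatIn r Y F`: `F ⊆ Y`, and the rank of `F` increases by `1` if any element of `Y \ F` is added.  For instance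
  `Y` is a flat, and `∅` is a flat if no box in `Y` is nugatory.
* `ordT k s = 2^k (12 k + 1) + 4 (k + s + 1)`.
* `ordP k k' = 2^k (12 k + 4 k' + 5) + 2^k' (12 k' + 4 k + 5)`.

Proof: a power of `δ = - A² - A⁻²` times the normalised bracket of a diagram with `k` twist regions has at most
`2^k (12 k + 1)` terms, whatever the numbers of the crossings are.  The moments of a Laurent polynomial are Vassiliev
invariants, and a polynomial with few terms is determined by few moments.  So two diagrams which are not separated
have the same normalised bracket, and `D` has a short bracket.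
It is, up to a unit and a power of `δ`, the sum of `(- A⁻⁴)^{n(R)} Z(R)` over the sets `R` of boxes.  So the
exponents decompose into clusters, and the lowest order terms at `δ = 0` of the `Z(R)` cancel in every cluster.  The
lowest order term of `Z(R)` is `0` if `R` is not a flat, and it has the sign `(-1)^{r(Y) - r(R)}` if `R` is a flat.
-/

set_option autoImplicit false

namespace Pool.Agent.Results.MP_31fd3b_gt.FlatPartnersPairs

open Finset Pool.Agent.H891R2.Jones Pool.Agent.H891R2.MT Pool.Agent.H832R3.TW Pool.Agent.H832R3.VJ Run7.h509.Abs Run7.h509.Tp Run7.h509.Vs

/-- Let `arcs` be a connected closed template with `k` boxes, and let `Y` be a nonempty spanning set of boxes none of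
which is nugatory (the diagram remains connected if the box is cut).  Let `D` be the link diagram with `|n e|`
crossings in the box `e`, with any directions.  Two sets `R`, `R' ⊆ Y` are called near if
`|n(R) - n(R')| ≤ 4 k + s + 1 + ∑_{e ∉ Y} |n e|`, where `n(R) = ∑_{e ∈ R} n e`.

* Suppose that some diagram `X` whose Jones polynomial has span at most `s` is not separated from `D` by the
  Vassiliev invariants of order at most `ordT k s = 2^k (12 k + 1) + 4 (k + s + 1)`, or that some diagram `D'` with
  `k' ≥ 1` twist regions, on any template and of any length, whose Jones polynomial has span at most `s`, is not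
  separated from `D` by those of order at most `ordP k k' = 2^k (12 k + 4 k' + 5) + 2^k' (12 k' + 4 k + 5)`.  Let `𝒞`
  be a family of subsets of `Y` which contains with a set all sets near to it.  If `𝒞` contains a flat, then it
  contains a flat whose rank has the other parity.  In particular every flat `F` of `Y` (for instance `F = ∅` and
  `F = Y`) is near to another set `R ⊆ Y`.
* So if `|n(R)| > 4 k + s + 1 + ∑_{e ∉ Y} |n e|` for all nonempty sets `R ⊆ Y` (for `Y = univ`: if no nonempty set of
  boxes has, with signs, almost as many positive as negative crossings), then `D` is separated from all these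
  diagrams by Vassiliev invariants of order at most `ordT k s`, respectively `ordP k k'`. -/
theorem result {k : ℕ} (arcs : List (Corner k × Corner k)) (ho : ClosedT arcs) (Y : Finset (Fin k))
    (hY : Y.Nonempty) (h1 : pieces arcs Finset.univ = 1) (h2 : ∀ e ∈ Y, pieces arcs {e}ᶜ = 1)
    (hsp : SpansT arcs Y) (s : ℕ) (n : Fin k → ℤ)
    (D : Diagram (Ribbon.Pt n)) (hD : Orients D (twisted arcs n)) (_ : D.IsClosed) :
    (((∃ X : Dia, FSpanLE s X.D ∧ ¬ Separated (ordT k s) ⟨_, inferInstance, D⟩ X) ∨
        ∃ (k' : ℕ) (arcs' : List (Corner k' × Corner k')) (n' : Fin k' → ℤ)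
          (D' : Diagram (Ribbon.Pt n')), 0 < k' ∧ Orients D' (twisted arcs' n') ∧ FSpanLE s D' ∧
            ¬ Separated (ordP k k') ⟨_, inferInstance, D⟩ ⟨_, inferInstance, D'⟩) →
      (∀ 𝒞 : Finset (Finset (Fin k)), (∀ R ∈ 𝒞, R ⊆ Y) →
        (∀ R ∈ 𝒞, ∀ R' ⊆ Y,
          |∑ e ∈ R, n e - ∑ e ∈ R', n e| ≤ 4 * k + s + 1 + ∑ e ∈ Yᶜ, |n e| → R' ∈ 𝒞) →
        ∀ F ∈ 𝒞, FlatIn (rkT arcs) Y F → ∃ F' ∈ 𝒞, FlatIn (rkT arcs) Y F' ∧
          Odd (rkT arcs F + rkT arcs F')) ∧
      ∀ F, FlatIn (rkT arcs) Y F → ∃ R ⊆ Y, R ≠ F ∧
        |∑ e ∈ F, n e - ∑ e ∈ R, n e| ≤ 4 * k + s + 1 + ∑ e ∈ Yᶜ, |n e|) ∧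
    ((∀ R ⊆ Y, R.Nonempty → 4 * k + s + 1 + ∑ e ∈ Yᶜ, |n e| < |∑ e ∈ R, n e|) →
      (∀ X : Dia, FSpanLE s X.D → Separated (ordT k s) ⟨_, inferInstance, D⟩ X) ∧
      ∀ (k' : ℕ), 0 < k' → ∀ (arcs' : List (Corner k' × Corner k')) (n' : Fin k' → ℤ)
      (D' : Diagram (Ribbon.Pt n')), Orients D' (twisted arcs' n') → FSpanLE s D' →
        Separated (ordP k k') ⟨_, inferInstance, D⟩ ⟨_, inferInstance, D'⟩) := by
  have hk : 0 < k := by
    obtain ⟨e, _⟩ := hY
    exact Fin.pos e
  constructor
  · intro h
    have h' : FSpanLE s D := by
      rcases h with ⟨X, hX, hs⟩ | ⟨k', arcs', n', D', hk', hD', hX, hs⟩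
      · by_contra key
        refine hs (sep_fix arcs hk s n D hD X hX (fun he => key ?_))
        unfold FSpanLE at hX ⊢
        rwa [he]
      · by_contra key
        refine hs (sep_pair arcs arcs' hk hk' n n' D hD D' hD' (fun he => key ?_))
        unfold FSpanLE at hX ⊢
        rwa [he]
    exact parityT (Or.inl ho) hY h1 h2 hsp s n D hD h'
  · intro h
    have key := zeroT (Or.inl ho) hY h1 h2 hsp s n h D hD
    refine ⟨fun X hX => sep_fix arcs hk s n D hD X hX (fun he => key ?_),
      fun k' hk' arcs' n' D' hD' hs => sep_pair arcs arcs' hk hk' n n' D hD D' hD' (fun he => key ?_)⟩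
    · unfold FSpanLE at hX ⊢
      rwa [he]
    · unfold FSpanLE at hs ⊢
      rwa [he]

end Pool.Agent.Results.MP_31fd3b_gt.FlatPartnersPairs

/-
Text of the claim file this result had while it was handed in (it is not handed in now):
Proves: Let arcs be a connected closed template with k boxes, Y a nonempty spanning set of boxes, each leaving one piece if cut, n in Z^k, D the link diagram with |n_e| crossings in each box e, B=4k+s+1+sum of |n_e| off Y; call R, R' in Y near if |n(R)-n(R')|<=B. If a diagram of Jones span <=s is not separated from D by Vassiliev invariants of order at most ordT k s, or one with k'>=1 twist regions by those of order at most ordP k k', then every family of subsets of Y closed under nearness which contains a flat contains flats of both rank parities, and every flat is near to another subset of Y. Hence if |n(R)|>B for all nonempty R in Y, they are all separated.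
Definitions: ClosedT: every corner is joined to exactly one other. pieces arcs X: pieces if the boxes off X are cut, each box in X is one piece. SpansT Y: |Yc|+pieces Yc=loops 0. rkT arcs Q=|Q|+pieces univ-pieces Qc. FlatIn r Y F: F in Y, adding any e of Y off F raises r. ordT k s=2^k(12k+1)+4(k+s+1); ordP k k'=2^k(12k+4k'+5)+2^k'(12k'+4k+5). Library: twisted, Orients, IsClosed, Separated, FSpanLE s (span <=s).
Relation: Partial answer to Q1 for pairs; start files LacunaryLinks, TwistRecovery need |n(R)-n(R')| large for all R, R'. Own: MP_42db45_gt.FlatPartners (Jones polynomial).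

-/
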