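import Pool.Agent.Run7.h509.Vs

/-!
# Vassiliev invariants of bounded order separate highly twisted diagrams with a series-parallel part from all smaller ones

Diagrams: `Pool.Agent.H891R2.Jones.Diagram` (`Diagram`: oriented diagrams with marked points; the arcs only say
which marked points are joined, so planarity is not required; `Diagram.IsClosed`: the pieces fit together to
closed oriented curves) and `Pool.Agent.H891R2.MT.Defs` (`UDiagram`, `Orients D U`: `D` is `U` with directions).

Vassiliev invariants: `Pool.Agent.H832R3.VJ.Defs` (`Dia`: an oriented diagram with the finite set of its marked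
points; `Move`: relabelling, subdivision of strands and the Reidemeister moves; `sing`: extension to diagrams
with double points by the Vassiliev skein relation; `IsVassiliev n v`: `v` is an invariant of oriented links of
order at most `n`; `Separated d X Y`: some integer valued Vassiliev invariant of order at most `d` has
different values on `X` and `Y`; `unknot`).

Templates: `Pool.Agent.H832R3.TW.Defs` (`Corner k`: the `4 k` corners of `k` boxes; a template is the list
`arcs` of the pairs of corners joined outside of the boxes; `twisted arcs n`: the diagram in which the box `e`
contains a row of `|n e|` crossings of the kind given by the sign of `n e`; `loops arcs S`: the number of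
components if the boxes `e ∈ S` contain two vertical strands (along the row) and the other boxes two
horizontal ones (the box is cut)).  Every link diagram whose crossings are divided into `k` twist regions
(rows of crossings of the same kind) is of the form `twisted arcs n`.
`FSpanLE s X` (in `Pool.Agent.H832R3.TW.E`): the normalised bracket of `X` is supported in an interval of length at
most `4 s` (the Jones polynomial has span at most `s`).

New definitions (`Pool.Agent.Run7.h509.Tp`, `Tp3`, `Defs`, `Vs`):

* `ClosedT arcs`: every corner is joined by an arc to exactly one other corner.
* `pieces arcs X`: the number of connected pieces of the diagram in which the boxes outside `X` are cut and every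
  box in `X` counts as one piece with its four corners.
* `ReducedT arcs Y`: the diagram remains connected if one or two of the boxes in `Y` are cut.  (A box which
  disconnects the diagram if it is cut is nugatory; two boxes which disconnect a plane diagram can be united by a
  flype.)
* `SpansT arcs Y`: `|Yᶜ| + pieces Yᶜ = loops ∅`; the boxes outside `Y`, as edges between the components of the
  state `∅` (all boxes cut), form a forest (always true for `Y = univ`).
* `gT arcs`: the rank function of the cycle matroid of the graph `G` whose vertices are the components of the
  state `∅` and whose edges are the boxes: `gT arcs X = pieces ∅ - pieces X`.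
* `SP r Y C`: the minor of the matroid with rank function `r` with the elements `Y`, in which the elements
  of `C` are contracted and all others are deleted, is series-parallel: it can be reduced to the empty
  matroid by deleting loops, contracting coloops, deleting one of two parallel elements and
  contracting one of two elements in series.
* `errT k c s C = (k + 1) (k + 1)! c^(k + 1) (4 k + s + 1 + C)`.
* `ordT k s = 2^k (12 k + 1) + 4 (k + s + 1)`.
* `ordP k k' = 2^k (12 k + 4 k' + 5) + 2^k' (12 k' + 4 k + 5)`.

So `SP (gT arcs) Y Yᶜ` says that the graph with the edges `Y` which is obtained from `G` by contracting all other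
edges is series-parallel.  (`G` itself may be any graph.)

Proof: a power of `δ = - A² - A⁻²` times the normalised bracket of a diagram with `k` twist regions has at most
`2^k (12 k + 1)` terms, whatever the numbers of the crossings are.  The moments of a Laurent polynomial are Vassiliev
invariants, and a polynomial with few terms is determined by few moments.  So two diagrams which are not separated
have the same normalised bracket, and `D` has a short bracket.
One evaluates at `u e = exp (2 π i y e / m)`, with rational numbers `y e` near `n e` and `m` near `M` such that
`y e = a e m` for `e ∉ Y` and `u` is constant on the clusters.  So `u e = 1` for `e ∉ Y` and `u e ≠ 1` for `e ∈ Y`, and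
the sum reduces to the matroid restricted to `Y`, which is series-parallel; for such matroids it is not zero.
-/

set_option autoImplicit false

namespace Pool.Agent.Results.MP_31fd3b_gt.SeriesParallelPartPairs

open Finset Pool.Agent.H891R2.Jones Pool.Agent.H891R2.MT Pool.Agent.H832R3.TW Pool.Agent.H832R3.VJ Run7.h509 Run7.h509.Tp Run7.h509.Vs

/-- Let `arcs` be a closed template with `k` boxes, and let `Y` be a nonempty spanning set of boxes which are reduced
and for which the graph with the edges `Y` (the other boxes contracted) is series-parallel.  Let `n ∈ ℤ^k`, with
arbitrary signs, and let `D` be the link diagram with `|n e|` crossings in the box `e`, with any directions.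
Suppose that one of the following holds:

* (i) the numbers of crossings of the boxes outside `Y` are near to multiples of a number `M` and
  those of the boxes in `Y` are not: there are integers `a e`, `|a e| ≤ c`, with `|n e - a e M| ≤ C` for
  `e ∉ Y`, and `|n e - j M| > B (|j| + 1)` for all `e ∈ Y` and all integers `j`, where
  `B = errT k c s C < M`;
* (ii) the boxes outside `Y` are short or have maximal length: `|n e| ≤ C` or `M ≤ |n e| ≤ M + C` for `e ∉ Y`, and
  `B < |n e| < M - 2 B` for `e ∈ Y`, where `B = errT k 1 s C`.

Then:

* Every link diagram `X` whose Jones polynomial has span at most `s` (for instance of a knot with at most `s`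
  crossings) is separated from `D` by a Vassiliev invariant of order at most
  `ordT k s = 2^k (12 k + 1) + 4 (k + s + 1)`.
* Every diagram `D'` with `k'` twist regions, on any template and of any length, whose Jones polynomial has span at
  most `s`, is separated from `D` by a Vassiliev invariant of order at most
  `ordP k k' = 2^k (12 k + 4 k' + 5) + 2^k' (12 k' + 4 k + 5)`, which depends neither on `s` nor on the twist
  numbers. -/
theorem result {k : ℕ} (arcs : List (Corner k × Corner k)) (ho : ClosedT arcs) (Y : Finset (Fin k))
    (hY : Y.Nonempty) (hred : ReducedT arcs Y) (hsp : SpansT arcs Y) (hSP : SP (gT arcs) Y Yᶜ)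
    (s C : ℕ) (n : Fin k → ℤ) (M : ℤ)
    (h : (∃ (c : ℕ) (a : Fin k → ℤ), 1 ≤ c ∧ errT k c s C < M ∧
        (∀ e, e ∉ Y → |a e| ≤ c ∧ |n e - a e * M| ≤ C) ∧
        ∀ e ∈ Y, ∀ j : ℤ, errT k c s C * (|j| + 1) < |n e - j * M|) ∨
      ((∀ e, e ∉ Y → |n e| ≤ C ∨ (M ≤ |n e| ∧ |n e| ≤ M + C)) ∧
        ∀ e ∈ Y, errT k 1 s C < |n e| ∧ |n e| < M - 2 * errT k 1 s C))
    (D : Diagram (Ribbon.Pt n)) (hD : Orients D (twisted arcs n)) (_ : D.IsClosed) :
    (∀ X : Dia, FSpanLE s X.D → Separated (ordT k s) ⟨_, inferInstance, D⟩ X) ∧
    ∀ (k' : ℕ), 0 < k' → ∀ (arcs' : List (Corner k' × Corner k')) (n' : Fin k' → ℤ)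
      (D' : Diagram (Ribbon.Pt n')), Orients D' (twisted arcs' n') → FSpanLE s D' →
        Separated (ordP k k') ⟨_, inferInstance, D⟩ ⟨_, inferInstance, D'⟩ := by
  have hk : 0 < k := by
    obtain ⟨e, _⟩ := hY
    exact Fin.pos e
  have key : ¬ FSpanLE s D := by
    rcases h with ⟨c, a, hc, hM, h1, h2⟩ | ⟨h1, h2⟩
    · exact resT (Or.inl ho) hY hred hsp hSP s C c hc n M a (fun e he => (h1 e he).1) hM
        (fun e he => (h1 e he).2) h2 D hD
    · exact maxT (Or.inl ho) hY hred hsp hSP s C n M h1 h2 D hD
  refine ⟨fun X hX => sep_fix arcs hk s n D hD X hX (fun he => key ?_),
    fun k' hk' arcs' n' D' hD' hs => sep_pair arcs arcs' hk hk' n n' D hD D' hD' (fun he => key ?_)⟩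
  · unfold FSpanLE at hX ⊢
    rwa [he]
  · unfold FSpanLE at hs ⊢
    rwa [he]

end Pool.Agent.Results.MP_31fd3b_gt.SeriesParallelPartPairs

/-
Text of the claim file this result had while it was handed in (it is not handed in now):
Proves: Let arcs be a closed template with k boxes, Y a nonempty reduced spanning set of boxes such that the graph G (vertices: components of the all-cut state, edges: boxes) with all edges off Y contracted is series-parallel, n in Z^k, D the link diagram with |n_e| crossings in each box e, B=errT k c s C. If (i) some integers M>B, |a_e|<=c (c>=1) have |n_e-a_e M|<=C for e off Y and |n_e-jM|>B(|j|+1) for e in Y and all j, or (ii) c=1, for e off Y |n_e|<=C or M<=|n_e|<=M+C, for e in Y B<|n_e|<M-2B, then Vassiliev invariants of order at most ordT k s separate D from all diagrams of Jones span <=s, those of order at most ordP k k' from all diagrams of Jones span <=s with k'>=1 twist regions.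
Definitions: ClosedT: every corner joined to exactly one other. pieces arcs X: pieces if the boxes off X are cut, each box in X is one piece. ReducedT Y: one piece if one or two boxes of Y are cut. SpansT Y: |Yc|+pieces Yc=loops 0. gT X=pieces 0-pieces X. SP r Y C: the minor on Y (C contracted, rest deleted) is series-parallel. errT k c s C=(k+1)(k+1)!c^(k+1)(4k+s+1+C). ordT k s=2^k(12k+1)+4(k+s+1); ordP k k'=2^k(12k+4k'+5)+2^k'(12k'+4k+5).
Relation: Partial answer to Q1 for pairs. Own SeriesParallelPairs needs G series-parallel; MP_42db45_gt.ArborescentPart: Jones polynomial.

-/
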